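import Mathlib
import Pool.Agent.H542R2.CL.Main2
import Pool.Agent.H542R2.CL.CM4

/-!
Lower bounds `n ^ (c k)` for refuting the existence of a `k`-clique, by refutation systems whose
lines are arbitrary predicates on `k`-tuples of vertices with descriptions of `n ^ δ` bits.
-/

namespace Pool.Agent.Results.MP_ba3460_lc.CliqueAnyLines

/-- A choice of one vertex in each of the `k` parts. -/
abbrev Choice (k n : ℕ) := Fin k → Fin n

/-- The vertices: `k` parts with `n` vertices each. -/
abbrev Vtx (k n : ℕ) := Fin k × Fin n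

/-- The axiom of a pair of vertices: not both are chosen. -/
def Ax {k n : ℕ} (u w : Vtx k n) (z : Choice k n) : Prop := ¬ (z u.1 = u.2 ∧ z w.1 = w.2)

/-- The pair `p` consists of two non-adjacent vertices of different parts. -/
def NonAdj {k n : ℕ} (G : SimpleGraph (Vtx k n)) (p : Vtx k n × Vtx k n) : Prop :=
  p.1.1 ≠ p.2.1 ∧ ¬ G.Adj p.1 p.2

/-- A refutation with `S` lines of the statement `G has a clique with one vertex in each part`.
Every line is a predicate from the set `A` of allowed lines; it is semantically implied by one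
axiom of `G` or by its premises, which are at most `a` earlier lines; the line `root` is
unsatisfiable. -/
structure Refutation {k n : ℕ} (G : SimpleGraph (Vtx k n)) (A : Finset (Choice k n → Bool))
    (a S : ℕ) where
  line : Fin S → Choice k n → Bool
  mem : ∀ j, line j ∈ A
  prem : Fin S → Finset (Fin S)
  card_prem : ∀ j, (prem j).card ≤ a
  prem_lt : ∀ j, ∀ p ∈ prem j, p < j
  sound : ∀ j, (∃ p, NonAdj G p ∧ ∀ z, Ax p.1 p.2 z → line j z = true) ∨
    ∀ z, (∀ p ∈ prem j, line p z = true) → line j z = true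
  root : Fin S
  final : ∀ z, line root z = false

/-- The refutation is tree-like: no line is a premise of two lines, and the root is no premise. -/
def Refutation.TreeLike {k n : ℕ} {G : SimpleGraph (Vtx k n)} {A : Finset (Choice k n → Bool)}
    {a S : ℕ} (π : Refutation G A a S) : Prop :=
  (∀ j j' p, p ∈ π.prem j → p ∈ π.prem j' → j = j') ∧ ∀ j, π.root ∉ π.prem j

/-- The refutation has depth at most `D`. -/
def Refutation.DepthLE {k n : ℕ} {G : SimpleGraph (Vtx k n)} {A : Finset (Choice k n → Bool)}
    {a S : ℕ} (π : Refutation G A a S) (D : ℕ) : Prop :=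
  ∃ d : Fin S → ℕ, (∀ j, d j ≤ D) ∧ ∀ j, ∀ p ∈ π.prem j, d p < d j

/-- A refutation of length `S` with a memory of `s` lines: a sequence of `S + 1` memory
configurations, each of them a set of at most `s` lines from the set `A` of allowed lines.  The
first configuration is empty; all lines of the next configuration are semantically implied by the
lines of the present one together with at most `a` axioms of `G`; the last configuration is
unsatisfiable. -/
structure MemoryRefutation {k n : ℕ} (G : SimpleGraph (Vtx k n))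
    (A : Finset (Choice k n → Bool)) (a s S : ℕ) where
  conf : ℕ → Finset (Choice k n → Bool)
  lines : ∀ t ≤ S, conf t ⊆ A
  space : ∀ t ≤ S, (conf t).card ≤ s
  init : conf 0 = ∅
  step : ∀ t < S, ∃ C : Finset (Vtx k n × Vtx k n), C.card ≤ a ∧ (∀ p ∈ C, NonAdj G p) ∧
    ∀ z, (∀ f ∈ conf t, f z = true) → (∀ p ∈ C, Ax p.1 p.2 z) → ∀ f ∈ conf (t + 1), f z = true
  final : ∀ z, ∃ f ∈ conf S, f z = false

open H542PM H542.CL Finset

open Classical in
/-- conjunction of the functions in `D` -/
noncomputable def con {Z : Type} (D : Finset (Z → Bool)) (z : Z) : Bool :=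
  decide (∀ f ∈ D, f z = true)

theorem con_iff {Z : Type} (D : Finset (Z → Bool)) (z : Z) :
    con D z = true ↔ ∀ f ∈ D, f z = true := by
  unfold con
  exact decide_eq_true_iff

open Classical in
/-- conjunctions of at most `s` functions from `A` -/
noncomputable def conj {Z : Type} [Fintype Z] (A : Finset (Z → Bool)) (s : ℕ) :
    Finset (Z → Bool) :=
  (Fintype.piFinset fun _ : Fin s => insertNone A).image fun g z =>
    decide (∀ i, ∀ f, g i = some f → f z = true)

theorem card_conj {Z : Type} [Fintype Z] (A : Finset (Z → Bool)) (s : ℕ) :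
    (conj A s).card ≤ (A.card + 1) ^ s := by
  classical
  unfold conj
  refine card_image_le.trans (le_of_eq ?_)
  rw [Fintype.card_piFinset]
  simp

theorem mem_conj {Z : Type} [Fintype Z] {A : Finset (Z → Bool)} {s : ℕ}
    {D : Finset (Z → Bool)} (hD : D ⊆ A) (hs : D.card ≤ s) : con D ∈ conj A s := by
  classical
  unfold conj
  rw [mem_image]
  refine ⟨fun i => D.toList[(i : ℕ)]?, ?_, ?_⟩
  · rw [Fintype.mem_piFinset]
    intro i
    rw [mem_insertNone]
    intro f hf
    exact hD (mem_toList.mp (List.mem_of_getElem? (Option.mem_def.mp hf)))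
  · funext z
    rw [Bool.eq_iff_iff, con_iff, decide_eq_true_iff]
    constructor
    · intro h f hf
      obtain ⟨m, hm, hmf⟩ := List.getElem_of_mem (mem_toList.mpr hf)
      apply h ⟨m, ?_⟩ f
      · show D.toList[m]? = some f
        rw [List.getElem?_eq_getElem hm, hmf]
      · rw [length_toList] at hm
        omega
    · intro h i f hf
      exact h f (mem_toList.mp (List.mem_of_getElem? hf))

theorem single_mem_conj {Z : Type} [Fintype Z] {A : Finset (Z → Bool)} {s : ℕ} (hs : 1 ≤ s)
    {f : Z → Bool} (hf : f ∈ A) : f ∈ conj A s := by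
  have h1 := mem_conj (D := {f}) (s := s) (singleton_subset_iff.mpr hf) (by simpa using hs)
  have h2 : con {f} = f := by
    funext z
    rw [Bool.eq_iff_iff, con_iff]
    simp
  rw [h2] at h1
  exact h1

theorem pairCl_iff {k n : ℕ} (u w : Vtx k n) (z : Choice k n) :
    pairCl u w z = true ↔ Ax u w z := by
  unfold pairCl Ax
  simp [imp_iff_not_or]

/-- For every `ε > 0` there are `c, δ > 0` such that for every `k` with `ε k > 1` and all large `n`
the following holds.  Let `A` be any set of at most `2 ^ (n ^ δ)` predicates on the choices of one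
vertex in each of `k` parts of `n` vertices.  Then there is a `k`-partite graph on these vertices
in which every clique has fewer than `ε k` vertices, but for the statement that it has a clique
with one vertex in each part, with lines from `A` and `a ≤ n ^ δ` premises or axioms per step:
every refutation with a memory of `n ^ δ` lines has length at least `n ^ (c k)`; every tree-like
refutation has at least `n ^ (c k)` lines; every refutation with `S` lines and depth `D` satisfies
`D log (a+1) ≥ c k log n` and `D log (a+1) log S ≥ (c k log n) ^ 2`. -/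
theorem result (ε : ℝ) (hε : 0 < ε) : ∃ c δ : ℝ, 0 < c ∧ 0 < δ ∧ ∀ k : ℕ, 1 < ε * k →
    ∃ n0 : ℕ, ∀ n ≥ n0, ∀ A : Finset (Choice k n → Bool),
      (A.card : ℝ) ≤ (2 : ℝ) ^ ((n : ℝ) ^ δ) → ∃ G : SimpleGraph (Vtx k n),
        (∀ u w, G.Adj u w → u.1 ≠ w.1) ∧
        (∀ s : Finset (Vtx k n), G.IsClique (s : Set (Vtx k n)) → (s.card : ℝ) < ε * k) ∧
        (∀ a s S : ℕ, (a : ℝ) ≤ (n : ℝ) ^ δ → (s : ℝ) ≤ (n : ℝ) ^ δ →
          Nonempty (MemoryRefutation G A a s S) → (n : ℝ) ^ (c * k) ≤ S) ∧
        (∀ (a S : ℕ) (π : Refutation G A a S), (a : ℝ) ≤ (n : ℝ) ^ δ → π.TreeLike →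
          (n : ℝ) ^ (c * k) ≤ S) ∧
        (∀ (a S D : ℕ) (π : Refutation G A a S), 1 ≤ a → (a : ℝ) ≤ (n : ℝ) ^ δ →
          π.DepthLE D →
            c * k * Real.logb 2 n ≤ D * Real.logb 2 (a + 1) ∧
            (c * k * Real.logb 2 n) ^ 2 ≤ D * Real.logb 2 (a + 1) * Real.logb 2 S) := by
  classical
  obtain ⟨δ, c, hδ, hc, hmain⟩ := main_good ε hε
  refine ⟨c / 8, δ, by positivity, hδ, fun k hk => ?_⟩
  obtain ⟨n0, hn0⟩ := hmain k hk
  refine ⟨max n0 2, fun n hn A hA => ?_⟩
  have hn2 : 2 ≤ n := (le_max_right _ _).trans hn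
  obtain ⟨T, x, hT, hx8, hcx, hTx, hTq, hT4, hB⟩ := hn0 n ((le_max_left _ _).trans hn)
  have hT4R : (4 : ℝ) ≤ T := by exact_mod_cast hT4
  have hnR : (2 : ℝ) ≤ n := by exact_mod_cast hn2
  have hAT : A.card ≤ 2 ^ T := by
    have h1 : (A.card : ℝ) ≤ (2 : ℝ) ^ (T : ℝ) :=
      hA.trans (Real.rpow_le_rpow_of_exponent_le (by norm_num) hT)
    rw [Real.rpow_natCast] at h1
    exact_mod_cast h1
  have hcard : (conj A T).card ≤ 2 ^ (T ^ 2 + T) := by
    refine (card_conj A T).trans ?_
    have h1 : A.card + 1 ≤ 2 ^ (T + 1) := by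
      rw [pow_succ]
      have : 1 ≤ 2 ^ T := Nat.one_le_two_pow
      omega
    calc (A.card + 1) ^ T ≤ (2 ^ (T + 1)) ^ T := Nat.pow_le_pow_left h1 _
      _ = 2 ^ (T ^ 2 + T) := by rw [← pow_mul]; congr 1; ring
  obtain ⟨G, μ, hG1, hG2, hg⟩ := hB (conj A T) hcard
  have hx0 : 0 ≤ x := by linarith
  have hfin : ∀ S : ℝ, 0 ≤ S → (2 : ℝ) ^ (x / 2) ≤ S → (n : ℝ) ^ (c / 8 * k) ≤ S := by
    intro S _ h
    refine le_trans ?_ h
    have h1 : (n : ℝ) = (2 : ℝ) ^ (Real.logb 2 n) :=
      (Real.rpow_logb (by norm_num) (by norm_num) (by linarith)).symm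
    calc (n : ℝ) ^ (c / 8 * k) = ((2 : ℝ) ^ (Real.logb 2 n)) ^ (c / 8 * k) := by rw [← h1]
      _ = (2 : ℝ) ^ (Real.logb 2 n * (c / 8 * k)) := (Real.rpow_mul (by norm_num) _ _).symm
      _ ≤ (2 : ℝ) ^ (x / 2) := by
          apply Real.rpow_le_rpow_of_exponent_le (by norm_num)
          have h2 : Real.logb 2 n * (c / 8 * k) = c * (k * Real.logb 2 n) / 8 := by ring
          rw [h2]
          linarith
  have hax : ∀ p : Vtx k n × Vtx k n, NonAdj G p → pairCl p.1 p.2 ∈ axs G :=
    fun p hp => ⟨p.1, p.2, hp.1, hp.2, rfl⟩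
  refine ⟨G, hG1, hG2, ?_, ?_, ?_⟩
  · -- memory
    rintro a s S ha hs ⟨⟨conf, hlines, hspace, hinit, hstep, hfinal⟩⟩
    have haT : a ≤ T := by exact_mod_cast ha.trans hT
    have hsT : s ≤ T := by exact_mod_cast hs.trans hT
    have hlin := linear_bound hg T S (by nlinarith) (fun t => con (conf t))
      (fun t ht => mem_coe.mpr (mem_conj (hlines t ht) ((hspace t ht).trans hsT))) (by
        intro z
        rw [con_iff, hinit]
        simp) (by
        intro t ht
        obtain ⟨C, hCa, hCG, himp⟩ := hstep t ht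
        refine ⟨C.toList.map fun p => pairCl p.1 p.2, ?_, ?_, ?_⟩
        · rw [List.length_map, length_toList]
          exact hCa.trans haT
        · intro f hf
          obtain ⟨p, hp, rfl⟩ := List.mem_map.mp hf
          exact hax p (hCG p (mem_toList.mp hp))
        · intro z hz hC
          have hz' := (con_iff _ _).mp hz
          rw [con_iff]
          apply himp z hz'
          intro p hp
          exact (pairCl_iff p.1 p.2 z).mp (hC _ (List.mem_map.mpr ⟨p, mem_toList.mpr hp, rfl⟩)))
      (by
        intro z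
        obtain ⟨f, hf, hfz⟩ := hfinal z
        by_contra hcon
        rw [Bool.not_eq_false, con_iff] at hcon
        rw [hcon f hf] at hfz
        exact absurd hfz (by simp))
    apply hfin _ (by positivity)
    apply num_lin (X := (T : ℝ) + 1) hx0 (by positivity) _ hlin
    refine le_trans ?_ hTx
    nlinarith
  · -- tree
    rintro a S ⟨line, hmem, prem, hprem, hlt, hsound, root, hroot⟩ ha ⟨htree, hfree⟩
    have haT : a ≤ T := by exact_mod_cast ha.trans hT
    have hok : ∀ j, NodeOk (axs G) line prem j := by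
      intro j
      rcases hsound j with ⟨p, hp, h⟩ | h
      · left
        exact ⟨pairCl p.1 p.2, hax p hp, fun z hz => h z ((pairCl_iff p.1 p.2 z).mp hz)⟩
      · right
        exact h
    have h0 := tree_bound hg (line := line)
      (fun j => single_mem_conj (by omega : 1 ≤ T) (hmem j)) (P := prem) (φ := T)
      (fun j => (hprem j).trans haT) (by nlinarith) hok htree hfree hroot
    rw [Fintype.card_fin] at h0
    apply hfin _ (by positivity)
    exact num_lin (X := ((T : ℝ) + 2) ^ 2) hx0 (by positivity) hTx h0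
  · -- depth
    rintro a S D ⟨line, hmem, prem, hprem, hlt, hsound, root, hroot⟩ ha1 ha ⟨dep, hdD, hdlt⟩
    have haT : a ≤ T := by exact_mod_cast ha.trans hT
    have haTR : (a : ℝ) ≤ T := by exact_mod_cast haT
    have hBm : ∀ j, line j ∈ (↑(conj A T) : Set (Choice k n → Bool)) :=
      fun j => single_mem_conj (by omega : 1 ≤ T) (hmem j)
    have hok : ∀ j, NodeOk (axs G) line prem j := by
      intro j
      rcases hsound j with ⟨p, hp, h⟩ | h
      · left
        exact ⟨pairCl p.1 p.2, hax p hp, fun z hz => h z ((pairCl_iff p.1 p.2 z).mp hz)⟩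
      · right
        exact h
    have hrootm : 1 / 2 ≤ ms μ [(line root, false)] := by
      have h1 : ms μ [(line root, false)] = ∑ z, μ z := by
        unfold ms
        congr 1
        ext z
        simp [mem_pts, hroot]
      rw [h1]
      exact hg.tot
    have hqa : a + 2 ≤ T ^ 2 + 4 := by nlinarith
    have hη1 : (2 : ℝ) ^ (-x) ≤ 1 / 4 := by
      have h1 : (2 : ℝ) ^ (-x) ≤ (2 : ℝ) ^ (-2 : ℝ) := by
        apply Real.rpow_le_rpow_of_exponent_le (by norm_num)
        linarith
      have h2 : (2 : ℝ) ^ (-2 : ℝ) = 1 / 4 := by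
        rw [Real.rpow_neg (by norm_num)]
        norm_num
      rw [h2] at h1
      exact h1
    have hS2 : 2 ≤ S := by
      rcases hok root with h | h
      · exfalso
        have h1 := leaf_bound hg (by omega) hBm h
        linarith
      · have h1 : (prem root).Nonempty := by
          by_contra hne
          rw [not_nonempty_iff_eq_empty] at hne
          have h2 := h (fun _ => ⟨0, by omega⟩) (by rw [hne]; simp)
          rw [hroot] at h2
          exact absurd h2 (by simp)
        obtain ⟨p, hp⟩ := h1
        have h3 : p ≠ root := (hlt root p hp).ne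
        have h4 : 1 < Fintype.card (Fin S) := Fintype.one_lt_card_iff.mpr ⟨p, root, h3⟩
        rw [Fintype.card_fin] at h4
        exact h4
    have hax4 : (a : ℝ) + 1 ≤ (2 : ℝ) ^ (x / 4) := by
      refine le_trans ?_ hTx
      nlinarith
    have hq' : (a : ℝ) * x + 2 ≤ ((T ^ 2 + 4 : ℕ) : ℝ) := by
      refine le_trans ?_ hTq
      have := mul_le_mul_of_nonneg_right haTR hx0
      linarith
    obtain ⟨h1, h2⟩ := cm4 a (T ^ 2 + 4) D S x hx8 ha1 hax4 hq' (by exact_mod_cast hS2)
      (hrootm.trans (depth_bound hg hBm hprem hqa hok hdlt D root (hdD root))) (by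
        intro l d hq hDd
        have h1 := dag_bound hg hBm ha1 hprem hok hdlt hq d root ((hdD root).trans hDd)
        rw [Fintype.card_fin] at h1
        exact hrootm.trans h1)
    have hk0 : (0 : ℝ) ≤ k := by positivity
    have hlog : 0 ≤ Real.logb 2 n := Real.logb_nonneg (by norm_num) (by linarith)
    have e1 : c / 8 * k * Real.logb 2 n = c * (k * Real.logb 2 n) / 8 := by ring
    have e0 : 0 ≤ c * (k * Real.logb 2 n) := by positivity
    refine ⟨?_, ?_⟩
    · rw [e1]
      linarith
    · rw [e1]
      refine le_trans ?_ h2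
      rw [div_pow]
      have : (c * (k * Real.logb 2 n)) ^ 2 ≤ x ^ 2 := pow_le_pow_left₀ e0 hcx 2
      linarith

end Pool.Agent.Results.MP_ba3460_lc.CliqueAnyLines
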