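import Mathlib
import Pool.Agent.H542R2.CL.Graph
import Pool.Agent.H542R2.CL.CL1
import Pool.Agent.H542R2.CL.CL2
import Pool.Agent.H542R2.CL.CL3
import Pool.Agent.H542R2.CL.CL4

/-!
Lower bounds `n ^ (c k)` for refuting the existence of a `k`-clique, by refutation systems whose
lines are arbitrary de Morgan formulas of linear size and whose inferences are arbitrary sound
inferences of bounded fan-in.
-/

namespace Pool.Agent.Results.MP_ba3460_lc.GapCliqueLines

/-- Propositional formulas over the variables `V`, of unbounded depth. -/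
inductive Fml (V : Type) : Type
  | const : Bool → Fml V
  | var : V → Fml V
  | neg : Fml V → Fml V
  | and : Fml V → Fml V → Fml V
  | or : Fml V → Fml V → Fml V

/-- Truth value of a formula. -/
def Fml.eval {V : Type} (z : V → Bool) : Fml V → Bool
  | .const b => b
  | .var v => z v
  | .neg f => !(f.eval z)
  | .and f g => f.eval z && g.eval z
  | .or f g => f.eval z || g.eval z

/-- Size of a formula: the number of occurrences of variables. -/
def Fml.size {V : Type} : Fml V → ℕ
  | .const _ => 0
  | .var _ => 1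
  | .neg f => f.size
  | .and f g => f.size + g.size
  | .or f g => f.size + g.size

/-- The vertices: `k` parts with `2 ^ b` vertices each, a vertex being a part and a bit string. -/
abbrev Vtx (k b : ℕ) := Fin k × (Fin b → Bool)

/-- The `k * b` propositional variables `x` of the encoding describe the choice of one vertex in
each part: `Chosen x u` says that the vertex `u` is the one chosen in its part. -/
def Chosen {k b : ℕ} (x : Fin k × Fin b → Bool) (u : Vtx k b) : Prop := ∀ i, x (u.1, i) = u.2 i

/-- A refutation with `S` lines, each of which is a formula of size at most `s`, of the statement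
`G has a clique with one vertex in each part`. The axioms say, for two non-adjacent vertices `u`
and `w` of different parts, that not both are chosen. Every line is implied by an axiom or by at
most `a` earlier lines, and some line is unsatisfiable. -/
structure Refutation {k b : ℕ} (G : SimpleGraph (Vtx k b)) (a s S : ℕ) where
  line : Fin S → Fml (Fin k × Fin b)
  size_le : ∀ j, (line j).size ≤ s
  sound : ∀ j, (∃ u w : Vtx k b, u.1 ≠ w.1 ∧ ¬ G.Adj u w ∧
      ∀ x, ¬ (Chosen x u ∧ Chosen x w) → (line j).eval x = true) ∨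
    ∃ P : Finset (Fin S), P.card ≤ a ∧ (∀ p ∈ P, p < j) ∧
      ∀ x, (∀ p ∈ P, (line p).eval x = true) → (line j).eval x = true
  final : ∃ j, ∀ x, (line j).eval x = false

open H542 H542.CL Finset

/-- negation normal form after the substitution `σ` of variables or `false` for the variables;
the flag `s` is the sign -/
def conv {W V : Type} (σ : W → Option V) (s : Bool) : Fml W → T V ⊕ Bool
  | .const b => .inr (b == s)
  | .var w => match σ w with
    | some v => .inl (.lit v s)
    | none => .inr (false == s)
  | .neg f => conv σ (!s) f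
  | .and f g => comb s (conv σ s f) (conv σ s g)
  | .or f g => comb (!s) (conv σ s f) (conv σ s g)

theorem evs_conv {W V : Type} (σ : W → Option V) (z : V → Bool) (s : Bool) (f : Fml W) :
    evs z (conv σ s f) = (f.eval (fun w => (σ w).elim false z) == s) := by
  induction f generalizing s with
  | const b => rfl
  | var w =>
    unfold conv Fml.eval
    cases h : σ w with
    | none => rfl
    | some v => rfl
  | neg f ih =>
    simp only [conv, Fml.eval, ih]
    cases f.eval (fun w => (σ w).elim false z) <;> cases s <;> rfl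
  | and f g ihf ihg =>
    simp only [conv, Fml.eval, evs_comb, ihf, ihg]
    cases f.eval (fun w => (σ w).elim false z) <;>
      cases g.eval (fun w => (σ w).elim false z) <;> cases s <;> rfl
  | or f g ihf ihg =>
    simp only [conv, Fml.eval, evs_comb, ihf, ihg]
    cases f.eval (fun w => (σ w).elim false z) <;>
      cases g.eval (fun w => (σ w).elim false z) <;> cases s <;> rfl

theorem leavess_conv {W V : Type} (σ : W → Option V) (s : Bool) (f : Fml W) :
    leavess (conv σ s f) ≤ f.size := by
  induction f generalizing s with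
  | const b => simp [conv, leavess]
  | var w =>
    unfold conv Fml.size
    cases h : σ w with
    | none => simp [leavess]
    | some v => simp [leavess, T.leaves]
  | neg f ih => exact ih (!s)
  | and f g ihf ihg =>
    exact (leavess_comb _ _ _).trans (add_le_add (ihf s) (ihg s))
  | or f g ihf ihg =>
    exact (leavess_comb _ _ _).trans (add_le_add (ihf s) (ihg s))

theorem card_eqv_fst {n M k : ℕ} (R : Fin M → Fin n → ZMod 2) (v : Fin M)
    (h8 : (univ.filter fun i => R v i ≠ 0).card ≤ 8) :
    (eqv (Prod.fst : Fin n × Fin k → Fin n) R v).card ≤ 8 * k := by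
  have h1 : eqv (Prod.fst : Fin n × Fin k → Fin n) R v =
      (univ.filter fun i => R v i ≠ 0) ×ˢ (univ : Finset (Fin k)) := by
    ext x
    simp [eqv]
  rw [h1, card_product, card_univ, Fintype.card_fin]
  exact Nat.mul_le_mul_right k h8

/-- For every `ε > 0`, every fan-in `a` and every constant `C` there are `c > 0` and `b0` such
that for all `b ≥ b0` and all `k` with `ε k > 1` there is a `k`-partite graph with `n = 2 ^ b`
vertices in each part which has no clique with `ε k` or more vertices, but every refutation of the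
statement that it has a `k`-clique with fan-in `a` and lines of size at most `C * (k * b)` has at
least `n ^ (c * k) = 2 ^ (c * (k * b))` lines. -/
theorem result (ε : ℝ) (hε : 0 < ε) (a C : ℕ) : ∃ (c : ℝ) (b0 : ℕ), 0 < c ∧
    ∀ b ≥ b0, ∀ k : ℕ, 1 < ε * k → ∃ G : SimpleGraph (Vtx k b),
      (∀ u w, G.Adj u w → u.1 ≠ w.1) ∧
      (∀ s : Finset (Vtx k b), G.IsClique (s : Set (Vtx k b)) → (s.card : ℝ) < ε * k) ∧
      ∀ S : ℕ, Nonempty (Refutation G a (C * (k * b)) S) → (2 : ℝ) ^ (c * (k * b)) ≤ S := by
  classical
  obtain ⟨C1, hC1⟩ : ∃ C1, C1 = ⌈3072 * C / ε⌉₊ := ⟨_, rfl⟩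
  obtain ⟨k', c1, n0, hk', hc1, hcore⟩ := cl4 a C1
  have hk'0 : (0 : ℝ) < k' := by exact_mod_cast hk'
  refine ⟨c1 * ε / (3072 * k'), 8 * k' * (192 * (n0 + 1) + ⌈24 / ε⌉₊), by positivity, ?_⟩
  intro b hb k hk
  obtain ⟨r, hr⟩ : ∃ r, r = b / (8 * k') := ⟨_, rfl⟩
  have hL : 0 < 8 * k' := by omega
  have hr0 : 192 * (n0 + 1) + ⌈24 / ε⌉₊ ≤ r := by
    rw [hr, Nat.le_div_iff_mul_le hL, mul_comm]
    exact hb
  have hrb : r * (8 * k') ≤ b := by rw [hr]; exact Nat.div_mul_le_self _ _
  have hbr : b ≤ 16 * k' * r := by
    have h1 : b < 8 * k' * (b / (8 * k') + 1) := Nat.lt_mul_div_succ b hL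
    rw [← hr] at h1
    have h2 : 1 ≤ r := by omega
    nlinarith
  have hkR : (0 : ℝ) < k := by
    by_contra hcon
    push Not at hcon
    nlinarith
  have hkpos : 0 < k := by exact_mod_cast hkR
  have hr1 : (192 : ℝ) * (n0 + 1) ≤ r := by
    have : 192 * (n0 + 1) ≤ r := by omega
    exact_mod_cast this
  have hr24 : 24 / ε ≤ r := by
    refine (Nat.le_ceil _).trans ?_
    have : ⌈24 / ε⌉₊ ≤ r := by omega
    exact_mod_cast this
  have hr24' : 24 ≤ r * ε := by rwa [div_le_iff₀ hε] at hr24
  have hrR : (0 : ℝ) < r := by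
    have : (0 : ℝ) ≤ n0 := by positivity
    nlinarith
  obtain ⟨n, hn⟩ : ∃ n, n = ⌊ε * r * k / 96⌋₊ := ⟨_, rfl⟩
  have hx2 : (2 : ℝ) * (n0 + 1) ≤ ε * r * k / 96 := by
    rw [le_div_iff₀ (by norm_num)]
    have h1 : r * 1 ≤ r * (ε * k) := mul_le_mul_of_nonneg_left hk.le hrR.le
    nlinarith
  have hnle : (n : ℝ) ≤ ε * r * k / 96 := by
    rw [hn]
    exact Nat.floor_le (by positivity)
  have hngt : ε * r * k / 96 < n + 1 := by
    rw [hn]
    exact Nat.lt_floor_add_one _
  have hn1 : (n0 : ℝ) + 1 ≤ n := by
    have : (0 : ℝ) ≤ n0 := by positivity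
    linarith
  have hnn0 : n0 ≤ n := by
    have : (n0 : ℝ) ≤ n := by linarith
    exact_mod_cast this
  have hnpos : 0 < n := by
    have : (0 : ℝ) < n := by
      have : (0 : ℝ) ≤ n0 := by positivity
      linarith
    exact_mod_cast this
  have hn1' : (1 : ℝ) ≤ n := by exact_mod_cast hnpos
  have hrk : ε * (r * k) ≤ 192 * n := by nlinarith
  obtain ⟨m, hm⟩ : ∃ m, m = ⌈ε * k⌉₊ := ⟨_, rfl⟩
  have hmge : ε * k ≤ m := by rw [hm]; exact Nat.le_ceil _
  have hmlt : (m : ℝ) < ε * k + 1 := by rw [hm]; exact Nat.ceil_lt_add_one (by positivity)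
  have hdes : 12 * (4 * n + k) ≤ r * m := by
    have h1 : (12 : ℝ) * (4 * n + k) ≤ r * m := by
      have h2 : 48 * (n : ℝ) ≤ ε * r * k / 2 := by linarith
      have h3 : 12 * (k : ℝ) ≤ ε * r * k / 2 := by nlinarith
      have h4 : ε * r * k ≤ r * m := by nlinarith
      linarith
    exact_mod_cast h1
  obtain ⟨R, hR8, hRe⟩ := cl1 n (4 * n) hnpos le_rfl
  obtain ⟨rb, hrhs⟩ := cl2 n R hnpos
  obtain ⟨grp, hgrp⟩ := cl3 k r (4 * n) m (by omega) hkpos hdes
  let V := Fin n × Fin k'
  let E : Fin (4 * n) → Finset V := fun v => eqv (Prod.fst : Fin n × Fin k' → Fin n) R v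
  obtain ⟨σ, hσ⟩ := exists_sigma (k := k) E grp (8 * k') hL (fun v => card_eqv_fst R v (hR8 v)) hrb
  let sat : (V → Bool) → Fin (4 * n) → Prop := fun z v => ∑ x ∈ E v, bz (z x) = rb v
  have hsat : ∀ v z z', (∀ x ∈ E v, z x = z' x) → sat z v → sat z' v := by
    intro v z z' h hz
    show ∑ x ∈ E v, bz (z' x) = rb v
    rw [← show ∑ x ∈ E v, bz (z x) = rb v from hz]
    exact sum_congr rfl fun x hx => by rw [h x hx]
  refine ⟨gr σ grp sat, fun u w h => h.1, ?_, ?_⟩
  · intro s hs
    rcases Nat.lt_or_ge s.card 2 with h2 | h2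
    · have : (s.card : ℝ) ≤ 1 := by exact_mod_cast (show s.card ≤ 1 by omega)
      linarith
    · obtain ⟨z, hz⟩ := clique_sat σ grp sat E hσ hsat s hs h2
      have h3 := hrhs (fun i => ∑ x ∈ univ.filter (fun x : V => x.1 = i), bz (z x))
      have h4 := hgrp _ h3
      have h5 : s.card ≤ (univ.filter fun g => ∀ j, grp g j ∉ univ.filter fun v =>
          H542.val R rb (fun i => ∑ x ∈ univ.filter (fun x : V => x.1 = i), bz (z x)) v ≠ 0).card := by
        apply card_le_card_of_injOn Prod.fst
        · intro u hu
          refine mem_coe.mpr (mem_filter.mpr ⟨mem_univ _, fun j => ?_⟩)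
          rw [mem_filter, not_and, not_not]
          intro _
          have h6 : ∑ x ∈ E (grp u.1 j), bz (z x) = rb (grp u.1 j) := hz u (mem_coe.mp hu) j
          have h7 := sum_eqv (Prod.fst : Fin n × Fin k' → Fin n) R (grp u.1 j) z
          unfold H542.val
          rw [← h7]
          show rb (grp u.1 j) + ∑ x ∈ E (grp u.1 j), bz (z x) = 0
          rw [h6]
          exact CharTwo.add_self_eq_zero _
        · intro u hu w hw h
          by_contra hne
          exact (hs hu hw hne).1 h
      have h6 : s.card + 1 ≤ m := by omega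
      have h7 : (s.card : ℝ) + 1 ≤ m := by exact_mod_cast h6
      linarith
  · rintro S ⟨π⟩
    by_contra hcon
    push Not at hcon
    have hkb : ε * (k * b) ≤ 3072 * (k' * n) := by
      have h1 : (b : ℝ) ≤ 16 * k' * r := by exact_mod_cast hbr
      calc ε * (k * b) ≤ ε * (k * (16 * k' * r)) :=
            mul_le_mul_of_nonneg_left (mul_le_mul_of_nonneg_left h1 hkR.le) hε.le
        _ = 16 * k' * (ε * (r * k)) := by ring
        _ ≤ 16 * k' * (192 * n) := mul_le_mul_of_nonneg_left hrk (by positivity)
        _ = 3072 * (k' * n) := by ring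
    have hsize : C * (k * b) ≤ C1 * (k' * n) := by
      have h1 : (C : ℝ) * (k * b) ≤ C1 * (k' * n) := by
        have h2 : 3072 * C / ε ≤ C1 := by rw [hC1]; exact Nat.le_ceil _
        have h3 : (k : ℝ) * b ≤ 3072 / ε * (k' * n) := by
          rw [div_mul_eq_mul_div, le_div_iff₀ hε]
          linarith
        calc (C : ℝ) * (k * b) ≤ C * (3072 / ε * (k' * n)) :=
              mul_le_mul_of_nonneg_left h3 (by positivity)
          _ = 3072 * C / ε * (k' * n) := by ring
          _ ≤ C1 * (k' * n) := mul_le_mul_of_nonneg_right h2 (by positivity)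
      exact_mod_cast h1
    have hS : (S : ℝ) < (2 : ℝ) ^ (c1 * n) := by
      refine hcon.trans_le (Real.rpow_le_rpow_of_exponent_le (by norm_num) ?_)
      rw [div_mul_eq_mul_div, div_le_iff₀ (by positivity)]
      calc c1 * ε * (k * b) = c1 * (ε * (k * b)) := by ring
        _ ≤ c1 * (3072 * (k' * n)) := mul_le_mul_of_nonneg_left hkb hc1.le
        _ = c1 * n * (3072 * k') := by ring
    obtain ⟨j, hj⟩ := π.final
    obtain ⟨z, hz⟩ := hcore n hnn0 (4 * n) R rb hRe hR8 S (fun j => conv σ true (π.line j))
      (fun j => (leavess_conv _ _ _).trans ((π.size_le j).trans hsize)) hS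
      (fun j => by
        rcases π.sound j with ⟨u, w, huw, hadj, hj⟩ | ⟨P, hP1, hP2, hP3⟩
        · left
          obtain ⟨v, hv⟩ := axiom_eq σ grp sat E hσ hsat ⟨0, by omega⟩ u w huw hadj
          refine ⟨v, fun z hz => ?_⟩
          have h0 : (π.line j).eval (fun w => (σ w).elim false z) = true := hj _ (hv z hz)
          rw [evs_conv, h0]
          rfl
        · right
          refine ⟨P, hP1, hP2, fun z hz => ?_⟩
          have h1 : ∀ p ∈ P, (π.line p).eval (fun w => (σ w).elim false z) = true := by
            intro p hp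
            have := hz p hp
            rw [evs_conv] at this
            simpa using this
          rw [evs_conv, hP3 _ h1]
          rfl) j
    rw [evs_conv, hj _] at hz
    simp at hz

end Pool.Agent.Results.MP_ba3460_lc.GapCliqueLines
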