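import Pool.Agent.H550R2.Cl.Fpt
import Pool.Agent.H550R2.Cl.Upper

set_option autoImplicit false

/-! The parameterized clique problem, and its approximation within every constant factor, for
random semidefinite programs that are symmetric under the translations of `k` blocks of
vertices. -/

namespace Pool.Agent.Results.MP_ba3460_lc.GapCliqueSDP

open Filter
open Pool.Agent.H550R2.Lift (SDP edPerm gvec)
open Pool.Agent.H550R2.Neg (RSDP)
open Pool.Agent.H550R2.Cl (TransSym SepClique par_lower fpt_lower clique_upper)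

/-- * For every `ε > 0` there is `C` such that for all `k, b ≥ C`, every finite vertex set `W`
  and every choice of `k` disjoint blocks of `2 ^ b` vertices, random semidefinite programs that
  are symmetric under the translations of the blocks and tell graphs on `W` with a `k`-clique
  from graphs without cliques of more than `ε k` vertices, with error at most `1 / 3`, have
  order at least `2 ^ (k b / C)`.
* Hence for no functions `f`, `g` with `g(k) / k → 0` can this be done by programs of order
  `f(k) N ^ g(k)`, `N` the number of vertices.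
* A program of order at most `(k ^ 2 + 1) N ^ k` which is symmetric under all permutations of
  the vertices accepts exactly the graphs with a `k`-clique. -/
theorem result :
    (∀ ε : ℝ, 0 < ε → ∃ C : ℕ, 0 < C ∧ ∀ (k b : ℕ), C ≤ k → C ≤ b →
      ∀ (W : Type) [Fintype W] (blk : Fin k × (Fin b → ZMod 2) ↪ W) (R : RSDP (Sym2 W)),
        TransSym R blk → SepClique R k (ε * k) →
        ∀ N : ℕ, (∀ ω, Fintype.card (R.D ω) ≤ N) → 2 ^ (k * b / C) ≤ N) ∧
    (∀ ε : ℝ, 0 < ε → ∀ (f : ℕ → ℕ) (g : ℕ → ℝ),
      Tendsto (fun k : ℕ => g k / k) atTop (nhds 0) → ∃ k b : ℕ, 0 < k ∧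
      ∀ (W : Type) [Fintype W], Fintype.card W = k * 2 ^ b →
      ∀ (blk : Fin k × (Fin b → ZMod 2) ↪ W) (R : RSDP (Sym2 W)),
        TransSym R blk → SepClique R k (ε * k) →
        ∃ ω, (f k : ℝ) * (Fintype.card W : ℝ) ^ g k < Fintype.card (R.D ω)) ∧
    ∀ (W : Type) [Fintype W] [DecidableEq W] (k : ℕ),
      ∃ (D : Type) (_ : Fintype D) (_ : DecidableEq D) (P : SDP (Sym2 W) D),
        Fintype.card D ≤ (k ^ 2 + 1) * Fintype.card W ^ k ∧
        (∀ p : Equiv.Perm W, ∃ O, P.IsAut (edPerm p) O) ∧
        ∀ G : SimpleGraph W, P.Acc (gvec G) ↔ k ≤ G.cliqueNum := by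
  refine ⟨par_lower, ?_, fun W _ _ k => clique_upper W k⟩
  intro ε hε f g hg
  obtain ⟨k, b, hk, h⟩ := fpt_lower ε hε f g hg
  refine ⟨k, b, hk, fun W _ hW blk R hR hsep => ?_⟩
  rw [hW]
  exact h W blk R hR hsep

end Pool.Agent.Results.MP_ba3460_lc.GapCliqueSDP
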