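import Mathlib
import Pool.Agent.H520R2.NMDefs
import Pool.Agent.H559R10.Gap

/-!
# No fixed-parameter approximation of the clique number in randomised circuits with few NOT gates

Consider circuits of AND and OR gates of fan-in two and of arbitrary further gates, the `i`-th of
them with `w i` input wires (for example NOT gates, with `w i = 1`), which get a graph with `n`
vertices as input.  Let `f` and `s` be arbitrary functions with `s k ≥ k`, let `c` be a number and
`0 ≤ γ < 2`.  For all large `k` there is `α > 0` such that for all large `n` randomised circuits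
with at most `f k * n ^ c` gates and with `∏ (w i + 1) ≤ n ^ γ` do not tell graphs with a clique of
`s k` vertices from graphs without clique of `k` vertices, not even with error
`1 / 2 - n ^ (-α)`; moreover there is one distribution of such graphs (uniform on a finite family)
that is hard for all these circuits.

With `N = n * (n - 1) / 2` input bits, `γ * log₂ n = (γ / 2) * log₂ N + O(1)` NOT gates are allowed,
for every `γ / 2 < 1`.  By Markov and Fischer `⌈log₂ (N + 1)⌉` NOT gates are as good as any number of
NOT gates, up to a polynomial in `N` that does not depend on `k`.  So if the same were true for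
this number of NOT gates, then `p-CLIQUE` would not be fixed-parameter tractable and `FPT ≠ W[1]`.

Proof.  A Ruzsa-Szemerédi (Behrend) type system of `(n / q) ^ (2 - o(1))` blocks with `s k` parts of
`q` vertices each has the property that every triangle of the union is in a block.  So a union of
graphs in the blocks has no `k`-clique if no block has one.  In one block the approximation method
with spread-type sunflowers shows that monotone circuits with `q ^ (k - o(1))` gates do not tell a
random clique with `s k` vertices (one in each part) from a random complete `(k - 1)`-partite graph,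
and a chain of random restrictions to one block (the hard distribution of `Pool.Agent.H560R2`)
eliminates the non-monotone gates.
-/

namespace Pool.Agent.Results.MP_ba3460_lc.NoFptApproximation

open Filter Finset Pool.Agent.H559R10 Pool.Agent.H520R2.NM

open Classical in
theorem result (f s : ℕ → ℕ) (hs : ∀ k, k ≤ s k) (c : ℕ) (γ : ℝ) (hγ0 : 0 ≤ γ) (hγ : γ < 2) :
    ∀ᶠ k : ℕ in atTop, ∃ α : ℝ, 0 < α ∧ ∀ᶠ n : ℕ in atTop,
      (∃ (Λ : Type) (_ : Fintype Λ) (_ : Nonempty Λ) (x : Λ → Sym2 (Fin n) → Bool),
        (∀ l, PromiseGap (s k) k (x l)) ∧
        ∀ (N : ℕ) (C : Circuit (Sym2 (Fin n)) N) (out : Wire (Sym2 (Fin n)) N),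
          (((C.fanins.map (· + 1)).prod : ℕ) : ℝ) ≤ (n : ℝ) ^ γ →
          C.size + C.fanins.sum ≤ f k * n ^ c →
          ((univ.filter (fun l =>
            RightGap (s k) k (x l) (out.eval (x l) (C.vals (x l))))).card : ℝ) <
            (1 / 2 + (n : ℝ) ^ (-α)) * Fintype.card Λ) ∧
      ∀ (Ω : Type) [Fintype Ω] (w : Ω → ℝ), (∀ r, 0 ≤ w r) → ∑ r, w r = 1 →
        ∀ (N : Ω → ℕ) (C : ∀ r, Circuit (Sym2 (Fin n)) (N r))
          (out : ∀ r, Wire (Sym2 (Fin n)) (N r)),
          (∀ r, ((((C r).fanins.map (· + 1)).prod : ℕ) : ℝ) ≤ (n : ℝ) ^ γ) →
          (∀ r, (C r).size + (C r).fanins.sum ≤ f k * n ^ c) →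
          ∃ x : Sym2 (Fin n) → Bool, PromiseGap (s k) k x ∧
            ∑ r ∈ univ.filter (fun r =>
              RightGap (s k) k x ((out r).eval x ((C r).vals x))), w r <
              1 / 2 + (n : ℝ) ^ (-α) :=
  fpt_gap f s hs c γ hγ0 hγ

end Pool.Agent.Results.MP_ba3460_lc.NoFptApproximation
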